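import Pool.Agent.L7h49.PM.Def

set_option autoImplicit false

/-! # Project PM, part DISC: irregularities of distribution (Roth's method) -/

namespace Pool.Agent.L7h78.PM

open Pool.Agent.L7h49.PM Finset

/-- averages over dyadic blocks of the length `2 ^ d` -/
noncomputable def Bt (e : ℕ → ℝ) : ℕ → ℕ → ℝ
  | 0, k => e k
  | d + 1, k => (Bt e d (2 * k) + Bt e d (2 * k + 1)) / 2

lemma Bt_sub (e f : ℕ → ℝ) (d k : ℕ) :
    Bt (fun j => e j - f j) d k = Bt e d k - Bt f d k := by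
  induction d generalizing k with
  | zero => rfl
  | succ d ih =>
    simp only [Bt, ih]
    ring

lemma Bt_lin (e : ℕ → ℝ) (α β : ℝ) (d k : ℕ)
    (h : ∀ j, k * 2 ^ d ≤ j → j < (k + 1) * 2 ^ d → e j = α - β * j) :
    Bt e d k = α - β * (k * 2 ^ d + (2 ^ d - 1) / 2) := by
  induction d generalizing k with
  | zero =>
    have := h k (by simp) (by simp)
    simp [Bt, this]
  | succ d ih =>
    have hp : 0 < 2 ^ d := by positivity
    have h1 := ih (2 * k) (fun j h1 h2 => h j (by rw [pow_succ]; nlinarith)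
      (by rw [pow_succ]; nlinarith))
    have h2 := ih (2 * k + 1) (fun j h1 h2 => h j (by rw [pow_succ]; nlinarith)
      (by rw [pow_succ]; nlinarith))
    rw [Bt, h1, h2]
    push_cast
    ring

/-- the energy at the level `r` -/
noncomputable def DD (R r : ℕ) (e : ℕ → ℝ) : ℝ :=
  (1 / 2 ^ r : ℝ) * ∑ k ∈ range (2 ^ r),
    ((Bt e (R - (r + 1)) (2 * k) - Bt e (R - (r + 1)) (2 * k + 1)) / 2) ^ 2

lemma DD_nonneg (R r : ℕ) (e : ℕ → ℝ) : 0 ≤ DD R r e := by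
  unfold DD
  exact mul_nonneg (by positivity) (sum_nonneg fun k _ => sq_nonneg _)

lemma DD_sub (R r : ℕ) (e f : ℕ → ℝ) :
    DD R r (fun j => e j - f j) ≤ 2 * DD R r e + 2 * DD R r f := by
  unfold DD
  have h : ∑ k ∈ range (2 ^ r), ((Bt (fun j => e j - f j) (R - (r + 1)) (2 * k) -
      Bt (fun j => e j - f j) (R - (r + 1)) (2 * k + 1)) / 2) ^ 2 ≤
      2 * (∑ k ∈ range (2 ^ r),
        ((Bt e (R - (r + 1)) (2 * k) - Bt e (R - (r + 1)) (2 * k + 1)) / 2) ^ 2) +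
      2 * (∑ k ∈ range (2 ^ r),
        ((Bt f (R - (r + 1)) (2 * k) - Bt f (R - (r + 1)) (2 * k + 1)) / 2) ^ 2) := by
    rw [mul_sum, mul_sum, ← sum_add_distrib]
    refine sum_le_sum fun k _ => ?_
    rw [Bt_sub, Bt_sub]
    nlinarith [sq_nonneg ((Bt e (R - (r + 1)) (2 * k) - Bt e (R - (r + 1)) (2 * k + 1)) / 2 +
      (Bt f (R - (r + 1)) (2 * k) - Bt f (R - (r + 1)) (2 * k + 1)) / 2)]
  have hp : (0 : ℝ) ≤ 1 / 2 ^ r := by positivity
  have := mul_le_mul_of_nonneg_left h hp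
  linarith [this]

lemma DD_sum (hD : S_DIA) (R : ℕ) (e : ℕ → ℝ) (M : ℝ) (hM : 0 ≤ M)
    (h : ∀ k < 2 ^ R, |e k| ≤ M) : ∑ r ∈ range R, DD R r e ≤ M ^ 2 := by
  have := hD R (fun r k => Bt e (R - r) k) M hM (by
      intro k hk
      have h2 := h k hk
      simp only [Nat.sub_self]
      exact h2) (by
      intro r hr k _
      show Bt e (R - r) k = (Bt e (R - (r + 1)) (2 * k) + Bt e (R - (r + 1)) (2 * k + 1)) / 2
      have : R - r = (R - (r + 1)) + 1 := by omega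
      rw [this]
      rfl)
  exact this

lemma lower (g : ℕ → ℝ → ℤ) (h K : ℝ)
    (h1 : ∀ n s, 0 ≤ s → s ≤ 1 → |(g n s : ℝ) - n * h * s| ≤ K)
    (h2 : ∀ m n s t, m ≤ n → 0 ≤ s → s ≤ t → t ≤ 1 → g n s - g m s ≤ g n t - g m t)
    (R r a n : ℕ) (hr : r < R) (hn1 : 2 * (n * h + 4 * K) ≤ 2 ^ r)
    (hn2 : (2 : ℝ) ^ r ≤ 4 * (n * h)) :
    1 / 512 ≤ DD R r (fun j => ((g (a + n) ((j : ℝ) / 2 ^ R) : ℝ) - g a ((j : ℝ) / 2 ^ R)) -
      n * h * ((j : ℝ) / 2 ^ R)) := by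
  classical
  set G : ℝ → ℤ := fun s => g (a + n) s - g a s with hG
  have hmono : ∀ s t : ℝ, 0 ≤ s → s ≤ t → t ≤ 1 → G s ≤ G t := fun s t hs hst ht =>
    h2 a (a + n) s t (by omega) hs hst ht
  have hpr : (0 : ℝ) < 2 ^ r := by positivity
  set f : ℕ → ℤ := fun k => G ((k : ℝ) / 2 ^ r) with hf
  have hinc : ∀ k ∈ range (2 ^ r), 0 ≤ f (k + 1) - f k := by
    intro k hk
    have hk' : k + 1 ≤ 2 ^ r := mem_range.1 hk
    have hk2 : ((k + 1 : ℕ) : ℝ) ≤ 2 ^ r := by exact_mod_cast hk'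
    have := hmono ((k : ℝ) / 2 ^ r) (((k + 1 : ℕ) : ℝ) / 2 ^ r) (by positivity)
      (by gcongr; push_cast; linarith) ((div_le_one hpr).2 hk2)
    simp only [hf]
    linarith
  have htel : ∑ k ∈ range (2 ^ r), (f (k + 1) - f k) = f (2 ^ r) - f 0 := sum_range_sub f _
  have hcard : (((range (2 ^ r)).filter (fun k => ¬ f (k + 1) = f k)).card : ℤ) ≤
      f (2 ^ r) - f 0 := by
    rw [← htel, card_filter]
    push_cast
    refine sum_le_sum fun k hk => ?_
    have h3 := hinc k hk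
    by_cases h4 : f (k + 1) = f k
    · simp only [h4, not_true_eq_false, if_false]
      omega
    · simp only [h4, not_false_eq_true, if_true]
      omega
  have hcard2 := card_filter_add_card_filter_not (s := range (2 ^ r)) (fun k => f (k + 1) = f k)
  rw [card_range] at hcard2
  have hf1 : (f (2 ^ r) : ℝ) - f 0 ≤ n * h + 4 * K := by
    have e1 : f (2 ^ r) = g (a + n) 1 - g a 1 := by
      simp only [hf, hG]
      push_cast
      rw [div_self hpr.ne']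
    have e0 : f 0 = g (a + n) 0 - g a 0 := by
      simp only [hf, hG]
      simp
    have b1 := abs_le.1 (h1 (a + n) 1 (by norm_num) le_rfl)
    have b2 := abs_le.1 (h1 a 1 (by norm_num) le_rfl)
    have b3 := abs_le.1 (h1 (a + n) 0 le_rfl (by norm_num))
    have b4 := abs_le.1 (h1 a 0 le_rfl (by norm_num))
    rw [e1, e0]
    push_cast at b1 b3 ⊢
    linarith [b1.1, b1.2, b2.1, b2.2, b3.1, b3.2, b4.1, b4.2]
  have hZ : (2 : ℝ) ^ r / 2 ≤ (((range (2 ^ r)).filter (fun k => f (k + 1) = f k)).card : ℝ) := by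
    have c1 : ((((range (2 ^ r)).filter (fun k => ¬ f (k + 1) = f k)).card : ℤ) : ℝ) ≤
        ((f (2 ^ r) - f 0 : ℤ) : ℝ) := by exact_mod_cast hcard
    have c2 : ((((range (2 ^ r)).filter (fun k => f (k + 1) = f k)).card +
      ((range (2 ^ r)).filter (fun k => ¬ f (k + 1) = f k)).card : ℕ) : ℝ) = ((2 ^ r : ℕ) : ℝ) := by
      exact_mod_cast hcard2
    push_cast at c1 c2
    linarith
  -- the terms
  have hterm : ∀ k ∈ (range (2 ^ r)).filter (fun k => f (k + 1) = f k),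
      (1 / 256 : ℝ) ≤ ((Bt (fun j => ((g (a + n) ((j : ℝ) / 2 ^ R) : ℝ) -
        g a ((j : ℝ) / 2 ^ R)) - n * h * ((j : ℝ) / 2 ^ R)) (R - (r + 1)) (2 * k) -
        Bt (fun j => ((g (a + n) ((j : ℝ) / 2 ^ R) : ℝ) - g a ((j : ℝ) / 2 ^ R)) -
        n * h * ((j : ℝ) / 2 ^ R)) (R - (r + 1)) (2 * k + 1)) / 2) ^ 2 := by
    intro k hk
    obtain ⟨hk1, hk2⟩ := mem_filter.1 hk
    have hk1' : k + 1 ≤ 2 ^ r := mem_range.1 hk1
    have hk1r : ((k : ℝ) + 1) ≤ 2 ^ r := by exact_mod_cast hk1'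
    obtain ⟨d, hd⟩ : ∃ d, R = r + 1 + d := ⟨R - (r + 1), by omega⟩
    have hRd : R - (r + 1) = d := by omega
    have hpd : (0 : ℝ) < 2 ^ d := by positivity
    have hpR : (2 : ℝ) ^ R = 2 ^ r * (2 * 2 ^ d) := by rw [hd, pow_add, pow_add]; ring
    rw [hRd]
    have hval : ∀ j : ℕ, 2 * k * 2 ^ d ≤ j → j < (2 * k + 2) * 2 ^ d →
        ((g (a + n) ((j : ℝ) / 2 ^ R) : ℝ) - g a ((j : ℝ) / 2 ^ R)) - n * h * ((j : ℝ) / 2 ^ R) =
        (f k : ℝ) - (n * h / 2 ^ R) * j := by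
      intro j hj1 hj2
      have hj1r : 2 * (k : ℝ) * 2 ^ d ≤ j := by exact_mod_cast hj1
      have hj2r : (j : ℝ) ≤ (2 * k + 2) * 2 ^ d := by exact_mod_cast hj2.le
      have i1 : (k : ℝ) / 2 ^ r ≤ (j : ℝ) / 2 ^ R := by
        rw [hpR, div_le_div_iff₀ hpr (by positivity)]
        nlinarith
      have i2 : (j : ℝ) / 2 ^ R ≤ ((k + 1 : ℕ) : ℝ) / 2 ^ r := by
        rw [hpR, div_le_div_iff₀ (by positivity) hpr]
        push_cast
        nlinarith
      have i3 : ((k + 1 : ℕ) : ℝ) / 2 ^ r ≤ 1 := by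
        rw [div_le_one hpr]
        exact_mod_cast hk1'
      have j1 : f k ≤ G ((j : ℝ) / 2 ^ R) := hmono _ _ (by positivity) i1 (i2.trans i3)
      have j2 : G ((j : ℝ) / 2 ^ R) ≤ f (k + 1) := hmono _ _ (by positivity) i2 i3
      have j3 : G ((j : ℝ) / 2 ^ R) = f k := by omega
      have j4 : ((g (a + n) ((j : ℝ) / 2 ^ R) : ℝ) - g a ((j : ℝ) / 2 ^ R)) = (f k : ℝ) := by
        rw [← j3]
        simp only [hG]
        push_cast
        ring
      rw [j4]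
      ring
    have l1 := Bt_lin (fun j => ((g (a + n) ((j : ℝ) / 2 ^ R) : ℝ) - g a ((j : ℝ) / 2 ^ R)) -
        n * h * ((j : ℝ) / 2 ^ R)) (f k) (n * h / 2 ^ R) d (2 * k)
        (fun j hj1 hj2 => hval j hj1 (lt_of_lt_of_le hj2 (Nat.mul_le_mul_right _ (by omega))))
    have l2 := Bt_lin (fun j => ((g (a + n) ((j : ℝ) / 2 ^ R) : ℝ) - g a ((j : ℝ) / 2 ^ R)) -
        n * h * ((j : ℝ) / 2 ^ R)) (f k) (n * h / 2 ^ R) d (2 * k + 1)
        (fun j hj1 hj2 => hval j (le_trans (Nat.mul_le_mul_right _ (by omega)) hj1) hj2)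
    rw [l1, l2]
    have hdiff : ((f k : ℝ) - n * h / 2 ^ R * (((2 * k : ℕ) : ℝ) * 2 ^ d + (2 ^ d - 1) / 2) -
        ((f k : ℝ) - n * h / 2 ^ R * (((2 * k + 1 : ℕ) : ℝ) * 2 ^ d + (2 ^ d - 1) / 2))) / 2 =
        n * h / (4 * 2 ^ r) := by
      rw [hpR]
      push_cast
      field_simp
      ring
    rw [hdiff]
    have h16 : (1 / 16 : ℝ) ≤ n * h / (4 * 2 ^ r) := by
      rw [div_le_div_iff₀ (by norm_num) (by positivity)]
      linarith
    nlinarith
  have hsum : (1 / 256 : ℝ) * (((range (2 ^ r)).filter (fun k => f (k + 1) = f k)).card : ℝ) ≤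
      ∑ k ∈ range (2 ^ r), ((Bt (fun j => ((g (a + n) ((j : ℝ) / 2 ^ R) : ℝ) -
        g a ((j : ℝ) / 2 ^ R)) - n * h * ((j : ℝ) / 2 ^ R)) (R - (r + 1)) (2 * k) -
        Bt (fun j => ((g (a + n) ((j : ℝ) / 2 ^ R) : ℝ) - g a ((j : ℝ) / 2 ^ R)) -
        n * h * ((j : ℝ) / 2 ^ R)) (R - (r + 1)) (2 * k + 1)) / 2) ^ 2 := by
    refine le_trans ?_ (sum_le_sum_of_subset_of_nonneg
      (filter_subset (fun k => f (k + 1) = f k) (range (2 ^ r))) (fun k _ _ => sq_nonneg _))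
    rw [mul_comm, ← nsmul_eq_mul]
    exact card_nsmul_le_sum _ _ _ hterm
  unfold DD
  rw [one_div_mul_eq_div, le_div_iff₀ hpr]
  linarith

theorem s_DISC (hD : S_DIA) : S_DISC := by
  intro g h K hh h1 h2
  have hK : 0 ≤ K := le_trans (abs_nonneg _) (h1 0 0 le_rfl (by norm_num))
  -- the numbers n_r
  set n : ℕ → ℕ := fun r => ⌈(2 : ℝ) ^ r / (4 * h)⌉₊ with hn
  obtain ⟨r0, hr0⟩ := pow_unbounded_of_one_lt (4 * (h + 4 * K)) (by norm_num : (1 : ℝ) < 2)
  obtain ⟨T, hT⟩ := exists_nat_gt (16384 * K ^ 2)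
  set R := r0 + T with hR
  set N := n R with hN
  have hNpos : 0 < N := Nat.ceil_pos.2 (by positivity)
  have hnle : ∀ r < R, n r ≤ N := by
    intro r hr
    refine Nat.ceil_mono ?_
    have : (2 : ℝ) ^ r ≤ 2 ^ R := pow_le_pow_right₀ (by norm_num) hr.le
    exact div_le_div_of_nonneg_right this (by positivity)
  -- properties of n r
  have hn1 : ∀ r, r0 ≤ r → 2 * ((n r : ℝ) * h + 4 * K) ≤ 2 ^ r := by
    intro r hr
    have c1 : (n r : ℝ) < (2 : ℝ) ^ r / (4 * h) + 1 := Nat.ceil_lt_add_one (by positivity)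
    have c2 : (2 : ℝ) ^ r0 ≤ 2 ^ r := pow_le_pow_right₀ (by norm_num) hr
    have c3 : (n r : ℝ) * h ≤ ((2 : ℝ) ^ r / (4 * h) + 1) * h :=
      mul_le_mul_of_nonneg_right c1.le hh.le
    have c4 : ((2 : ℝ) ^ r / (4 * h) + 1) * h = 2 ^ r / 4 + h := by
      field_simp
    linarith
  have hn2 : ∀ r, (2 : ℝ) ^ r ≤ 4 * ((n r : ℝ) * h) := by
    intro r
    have c1 : (2 : ℝ) ^ r / (4 * h) ≤ n r := Nat.le_ceil _
    rw [div_le_iff₀ (by positivity)] at c1
    linarith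
  set E : ℕ → ℕ → ℝ := fun a j => ((g a ((j : ℝ) / 2 ^ R) : ℝ) - g 0 ((j : ℝ) / 2 ^ R)) -
    a * h * ((j : ℝ) / 2 ^ R) with hE
  have hEb : ∀ a, ∀ k < 2 ^ R, |E a k| ≤ 2 * K := by
    intro a k hk
    have hk' : (k : ℝ) ≤ 2 ^ R := by exact_mod_cast hk.le
    have hs1 : 0 ≤ (k : ℝ) / 2 ^ R := by positivity
    have hs2 : (k : ℝ) / 2 ^ R ≤ 1 := by
      rw [div_le_one (by positivity)]
      exact hk'
    have b1 := abs_le.1 (h1 a _ hs1 hs2)
    have b2 := abs_le.1 (h1 0 _ hs1 hs2)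
    push_cast at b2
    rw [abs_le]
    simp only [hE]
    constructor
    · linarith [b1.1, b1.2, b2.1, b2.2]
    · linarith [b1.1, b1.2, b2.1, b2.2]
  have htot : ∀ a, ∑ r ∈ range R, DD R r (E a) ≤ (2 * K) ^ 2 := fun a =>
    DD_sum hD R (E a) (2 * K) (by positivity) (hEb a)
  -- for one r
  have hone : ∀ r, r0 ≤ r → r < R → (N : ℝ) / 512 ≤ 4 * ∑ a ∈ range (2 * N), DD R r (E a) := by
    intro r hr1 hr2
    have s1 : (N : ℝ) / 512 ≤ ∑ a ∈ range N, (2 * DD R r (E (a + n r)) + 2 * DD R r (E a)) := by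
      have : (N : ℝ) / 512 = ∑ a ∈ range N, (1 / 512 : ℝ) := by
        rw [sum_const, card_range, nsmul_eq_mul]
        ring
      rw [this]
      refine sum_le_sum fun a _ => ?_
      refine le_trans (lower g h K h1 h2 R r a (n r) hr2 (hn1 r hr1) (hn2 r)) ?_
      refine le_trans (le_of_eq ?_) (DD_sub R r (E (a + n r)) (E a))
      congr 1
      funext j
      simp only [hE]
      push_cast
      ring
    have s2 : ∑ a ∈ range N, DD R r (E (a + n r)) ≤ ∑ a ∈ range (2 * N), DD R r (E a) := by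
      have : ∑ a ∈ range N, DD R r (E (a + n r)) = ∑ a ∈ (range N).image (fun a => a + n r),
          DD R r (E a) := by
        rw [sum_image]
        intro x _ y _ hxy
        exact Nat.add_right_cancel hxy
      rw [this]
      refine sum_le_sum_of_subset_of_nonneg ?_ (fun a _ _ => DD_nonneg _ _ _)
      intro x hx
      obtain ⟨a, ha, rfl⟩ := mem_image.1 hx
      have := hnle r hr2
      have := mem_range.1 ha
      exact mem_range.2 (by omega)
    have s3 : ∑ a ∈ range N, DD R r (E a) ≤ ∑ a ∈ range (2 * N), DD R r (E a) :=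
      sum_le_sum_of_subset_of_nonneg (range_subset_range.2 (by omega))
        (fun a _ _ => DD_nonneg _ _ _)
    rw [sum_add_distrib, ← mul_sum, ← mul_sum] at s1
    linarith
  have hall : (T : ℝ) * ((N : ℝ) / 512) ≤
      4 * ∑ r ∈ range R, ∑ a ∈ range (2 * N), DD R r (E a) := by
    have t1 : (T : ℝ) * ((N : ℝ) / 512) = ∑ r ∈ Ico r0 R, (N : ℝ) / 512 := by
      rw [sum_const, Nat.card_Ico, nsmul_eq_mul]
      congr 2
      omega
    rw [t1, mul_sum]
    refine le_trans (sum_le_sum fun r hr => hone r (mem_Ico.1 hr).1 (mem_Ico.1 hr).2) ?_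
    refine sum_le_sum_of_subset_of_nonneg ?_ (fun r _ _ => ?_)
    · intro r hr
      exact mem_range.2 (mem_Ico.1 hr).2
    · exact mul_nonneg (by norm_num) (sum_nonneg fun a _ => DD_nonneg _ _ _)
  rw [sum_comm] at hall
  have hlast : ∑ a ∈ range (2 * N), ∑ r ∈ range R, DD R r (E a) ≤ (2 * N) * (2 * K) ^ 2 := by
    refine le_trans (sum_le_sum fun a _ => htot a) ?_
    rw [sum_const, card_range, nsmul_eq_mul]
    push_cast
    exact le_rfl
  have hNr : (0 : ℝ) < N := by exact_mod_cast hNpos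
  have : (T : ℝ) * ((N : ℝ) / 512) ≤ 4 * ((2 * N) * (2 * K) ^ 2) := by linarith
  have h5 : (T : ℝ) * N ≤ (16384 * K ^ 2) * N := by nlinarith
  have := le_of_mul_le_mul_right h5 hNr
  linarith

end Pool.Agent.L7h78.PM
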